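import Pool.Agent.W123.RU.PolyV
import Pool.Agent.W123.RU.Gen
import Pool.Agent.W123.PP.SieveE
import Pool.Agent.W123.GS.Loc

set_option autoImplicit false

/-!
# Sieve input for the almost prime values of a system of polynomials in short intervals
-/

namespace Pool.Agent.TH464.PW

open Polynomial Finset Filter
open Pool.Agent.W123.RP Pool.Agent.H373R2.T7 Pool.Agent.W123.RU Pool.Agent.W123.RU.Poly

/-- Every value `f i (m)` has at most `r` prime factors (with multiplicity), all of them larger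
than `z`. -/
def Almost {ι : Type} (f : ι → ℤ[X]) (r : ℕ) (z : ℝ) (m : ℕ) : Prop :=
  ∀ i, ((f i).eval (m : ℤ)).natAbs.primeFactorsList.length ≤ r ∧
    ∀ p : ℕ, p.Prime → (p : ℤ) ∣ (f i).eval (m : ℤ) → z < (p : ℝ)

variable {ι : Type} [Fintype ι]

/-- the shifted condition -/
def Qs (f : ι → ℤ[X]) (s p m : ℕ) : Prop := Q f p (m + s)

lemma nuB_Qs (f : ι → ℤ[X]) (c : ℕ) (hQ : PerB (Q f) c) (s p : ℕ) :
    nuB (Qs f s) p = nuB (Q f) p := by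
  rw [← nuB_shift (Q f) c hQ s p]
  rfl

lemma perB_Qs (f : ι → ℤ[X]) (c : ℕ) (hQ : PerB (Q f) c) (s : ℕ) : PerB (Qs f s) c := by
  refine ⟨fun p n => ?_, fun p hp => ?_⟩
  · unfold Qs
    rw [hQ.per p (n + s), hQ.per p (n % p + s)]
    rw [Nat.mod_add_mod]
  · rw [nuB_Qs f c hQ]
    exact hQ.few p hp

lemma sdata_Qs (f : ι → ℤ[X]) (hf : Sys f) (c : ℕ) (hc : PerB (Q f) c) (s : ℕ) :
    Sdata (Qs f s) (CoG (Q f)) c (2 * c) (c ^ 2) := by
  have h := sdata f hf c hc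
  refine ⟨perB_Qs f c hc s, ?_, le_rfl, ?_, h.cR⟩
  · intro p hp
    rw [nuB_Qs f c hc]
    exact h.adm p hp
  · intro p _ _ t m h1 h2
    refine ⟨m + s, h1, ?_⟩
    unfold Qs at h2
    rw [show m + s + t = m + t + s by ring]
    exact h2

lemma Vq_Qs (f : ι → ℤ[X]) (c : ℕ) (hQ : PerB (Q f) c) (s y : ℕ) :
    Vq (Qs f s) y = Vq (Q f) y := by
  unfold Vq
  exact Finset.prod_congr rfl fun p _ => by rw [nuB_Qs f c hQ]

/-- the rough condition at height `X` in the interval of length `Y` -/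
def Rgh (f : ι → ℤ[X]) (r X Y m : ℕ) : Prop :=
  ∀ p ∈ pz ⌊(X : ℝ) ^ (1 / (r : ℝ))⌋₊, ¬ Qs f (X - Y) p m

/-- the almost primality at height `X` in the interval of length `Y` -/
def Alm (f : ι → ℤ[X]) (r X Y m : ℕ) : Prop :=
  Almost f r ((X : ℝ) ^ (1 / (r : ℝ))) (m + (X - Y))

lemma rgh_of_alm (f : ι → ℤ[X]) (r X Y m : ℕ) (h : Alm f r X Y m) : Rgh f r X Y m := by
  intro p hp hq
  obtain ⟨i, hi⟩ := hq
  have h1 := (h i).2 p (mem_pz.1 hp).2 hi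
  have h2 := mem_pz' (by positivity) hp
  linarith

lemma logpow_rpow (g : ℕ) (M θ : ℝ) (hM : 0 < M) (hθ : 0 < θ) :
    ∀ᶠ X : ℕ in atTop, M * Real.log X ^ g ≤ (X : ℝ) ^ θ := by
  have h := ((isLittleO_log_rpow_rpow_atTop (g : ℝ) hθ).comp_tendsto
    tendsto_natCast_atTop_atTop).bound (by positivity : (0 : ℝ) < 1 / M)
  filter_upwards [h, eventually_ge_atTop 1] with X h2 hX1
  have hX1' : (1 : ℝ) ≤ X := by exact_mod_cast hX1
  have hlog : 0 ≤ Real.log (X : ℝ) := Real.log_nonneg hX1'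
  simp only [Function.comp_def] at h2
  rw [Real.norm_of_nonneg (by positivity), Real.norm_of_nonneg (by positivity), Real.rpow_natCast,
    ] at h2
  rw [one_div, inv_mul_eq_div, le_div_iff₀ hM] at h2
  linarith

open Classical in
/-- **The sieve input.** -/
theorem input [Nonempty ι] (f : ι → ℤ[X]) (hf : Sys f) (θ : ℝ) (hθ : 0 < θ) (hθ1 : θ ≤ 1) :
    ∃ (r : ℕ) (C1 C2 cS : ℝ), 2 ≤ r ∧ 0 < C1 ∧ 0 < C2 ∧ 0 < cS ∧ ∀ B0 : ℝ, 0 < B0 →
      ∀ᶠ X : ℕ in atTop, ∀ Y : ℕ, (X : ℝ) ^ θ ≤ Y → Y ≤ X →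
        2 ≤ Real.log X ^ (Fintype.card ι) ∧
        B0 * (Real.log X ^ (Fintype.card ι)) ^ 2 ≤ Y ∧
        (co (Rgh f r X Y) 0 (4 * Y) : ℝ) ≤ C1 * Y / Real.log X ^ (Fintype.card ι) ∧
        ∑ n ∈ Finset.Ico Y (2 * Y + 1),
          ((co (Rgh f r X Y) n (n + ⌊Real.log X ^ (Fintype.card ι)⌋₊) : ℝ)) ^ 2 ≤ C2 * Y ∧
        cS * Y / Real.log X ^ (Fintype.card ι) ≤ (co (Alm f r X Y) Y (2 * Y) : ℝ) := by
  obtain ⟨k, hk⟩ : ∃ k, k = Fintype.card ι := ⟨_, rfl⟩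
  have hk1 : 1 ≤ k := by rw [hk]; exact Fintype.card_pos
  rw [← hk]
  obtain ⟨c, hc, hQ⟩ := exists_c f hf
  obtain ⟨D', e, hlarge⟩ := exists_large f hf
  obtain ⟨v, Cv, hv, hCv, hV⟩ := V_bounds f hf
  rw [← hk] at hV
  obtain ⟨K1, hK1, hmain⟩ := Pool.Agent.W123.PP.sieve_inputE c (2 * c) (c ^ 2) D' e hc
  obtain ⟨K2, hK2, hlow⟩ := rough_lower c hc
  choose Ki Di hKD using fun i => eval_bound (f i)
  obtain ⟨A, hA⟩ : ∃ A : ℕ, A = 1 + ∑ i, Ki i := ⟨_, rfl⟩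
  obtain ⟨d, hd⟩ : ∃ d : ℕ, d = ∑ i, Di i := ⟨_, rfl⟩
  obtain ⟨r0, hr0⟩ : ∃ r0 : ℕ, r0 = max K2 2 := ⟨_, rfl⟩
  have hr0K : K2 ≤ r0 := by rw [hr0]; exact le_max_left _ _
  have hr02 : 2 ≤ r0 := by rw [hr0]; exact le_max_right _ _
  have hr0r : (2 : ℝ) ≤ r0 := by exact_mod_cast hr02
  have hr0pos : (0 : ℝ) < r0 := by linarith
  obtain ⟨R0, hR0⟩ : ∃ R0 : ℕ, ((d : ℝ) + 2) * r0 / θ ≤ R0 := exists_nat_ge _
  obtain ⟨r, hr⟩ : ∃ r : ℕ, r = max K1 (max R0 2) := ⟨_, rfl⟩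
  have hrK : K1 ≤ r := by rw [hr]; exact le_max_left _ _
  have hrR : R0 ≤ r := by rw [hr]; exact (le_max_left _ _).trans (le_max_right _ _)
  have hr2 : 2 ≤ r := by rw [hr]; exact (le_max_right _ _).trans (le_max_right _ _)
  have hrr : (2 : ℝ) ≤ r := by exact_mod_cast hr2
  have hrpos : (0 : ℝ) < r := by linarith
  have hd0 : (0 : ℝ) ≤ d := Nat.cast_nonneg d
  have hrθ : ((d : ℝ) + 2) * r0 ≤ θ * r := by
    have h1 : ((d : ℝ) + 2) * r0 / θ ≤ r := hR0.trans (by exact_mod_cast hrR)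
    rw [div_le_iff₀ hθ] at h1
    linarith
  have hr0θ : (r0 : ℝ) ≤ θ * r := by nlinarith
  have hr0r' : (r0 : ℝ) ≤ r := by nlinarith
  set C3 : ℝ := Cv * (2 * r / θ) ^ k with hC3
  have hC30 : 0 < C3 := by positivity
  obtain ⟨C1, C2, hC1, hC2, hin⟩ := hmain r hrK C3 hC30
  refine ⟨r, C1, C2, v / 2, hr2, hC1, hC2, by positivity, ?_⟩
  intro B0 hB0
  obtain ⟨L0, hL0⟩ := hin B0 hB0
  obtain ⟨Y1, hY1⟩ := eventually_atTop.1 hL0
  obtain ⟨Y2, hY2⟩ := eventually_atTop.1 (hlow r0 hr0K (k + 1))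
  have hXr : Tendsto (fun X : ℕ => (X : ℝ)) atTop atTop := tendsto_natCast_atTop_atTop
  have hpow : Tendsto (fun X : ℕ => (X : ℝ) ^ θ) atTop atTop := (tendsto_rpow_atTop hθ).comp hXr
  have hpow2 : Tendsto (fun X : ℕ => (X : ℝ) ^ (θ / (2 * r))) atTop atTop :=
    (tendsto_rpow_atTop (by positivity)).comp hXr
  have hlogX : Tendsto (fun X : ℕ => Real.log (X : ℝ)) atTop atTop :=
    Real.tendsto_log_atTop.comp hXr
  filter_upwards [hpow.eventually_ge_atTop ((Y1 : ℝ) + Y2 + 16), hpow2.eventually_ge_atTop 3,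
    hlogX.eventually_ge_atTop ((2 + |L0| + 1 / v) / θ), logpow_rpow (8 * k) 1 θ one_pos hθ,
    eventually_ge_atTop (max 16 (A * 5 ^ d))] with X hX1 hX2 hX3 hX4 hX5
  intro Y hXY hYX
  have hX16 : 16 ≤ X := (le_max_left _ _).trans hX5
  have hXA : A * 5 ^ d ≤ X := (le_max_right _ _).trans hX5
  have hX16r : (16 : ℝ) ≤ X := by exact_mod_cast hX16
  have hXpos : (0 : ℝ) < X := by linarith
  have hXone : (1 : ℝ) ≤ X := by linarith
  have hYXr : (Y : ℝ) ≤ X := by exact_mod_cast hYX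
  have hY1r : (0 : ℝ) ≤ Y1 := Nat.cast_nonneg _
  have hY2r : (0 : ℝ) ≤ Y2 := Nat.cast_nonneg _
  have hY16 : (16 : ℝ) ≤ Y := by linarith
  have hYpos : (0 : ℝ) < Y := by linarith
  have hYone : (1 : ℝ) ≤ Y := by linarith
  have hYn : 16 ≤ Y := by exact_mod_cast hY16
  have hYY1 : Y1 ≤ Y := by
    have : (Y1 : ℝ) ≤ Y := by linarith
    exact_mod_cast this
  have hYY2 : Y2 ≤ Y := by
    have : (Y2 : ℝ) ≤ Y := by linarith
    exact_mod_cast this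
  obtain ⟨s, hs⟩ : ∃ s, s = X - Y := ⟨_, rfl⟩
  have hlogY : θ * Real.log X ≤ Real.log Y := by
    rw [← Real.log_rpow hXpos]
    exact Real.log_le_log (by positivity) hXY
  have hlogYX : Real.log Y ≤ Real.log X := Real.log_le_log hYpos hYXr
  have hL0a : 0 ≤ |L0| := abs_nonneg _
  have hv1 : 0 < 1 / v := by positivity
  have hθlog : 2 + |L0| + 1 / v ≤ θ * Real.log X := by
    rw [div_le_iff₀ hθ] at hX3
    linarith
  have hlY2 : 2 + |L0| + 1 / v ≤ Real.log Y := by linarith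
  have hlX2 : 2 + |L0| + 1 / v ≤ Real.log X := by linarith
  have hlX1 : 1 ≤ Real.log X := by linarith
  have hlX0 : 0 < Real.log X := by linarith
  have hlY0 : 0 < Real.log Y := by linarith
  set L : ℝ := Real.log X ^ k with hL
  have hlL : Real.log X ≤ L := by
    calc Real.log X = Real.log X ^ 1 := (pow_one _).symm
      _ ≤ Real.log X ^ k := pow_le_pow_right₀ hlX1 hk1
  have hLpos : 0 < L := by linarith
  have hL8 : L ^ 8 ≤ Y := by
    rw [hL, ← pow_mul, mul_comm k 8]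
    linarith
  -- levels
  have hYr : (3 : ℝ) ≤ (Y : ℝ) ^ (1 / (2 * r : ℝ)) := by
    refine le_trans hX2 ?_
    calc (X : ℝ) ^ (θ / (2 * r)) = ((X : ℝ) ^ θ) ^ (1 / (2 * r : ℝ)) := by
          rw [← Real.rpow_mul hXpos.le]
          congr 1
          ring
      _ ≤ _ := Real.rpow_le_rpow (by positivity) hXY (by positivity)
  have hYr0 : (Y : ℝ) ^ (1 / (2 * r : ℝ)) ≤ (Y : ℝ) ^ (1 / (2 * r0 : ℝ)) := by
    apply Real.rpow_le_rpow_of_exponent_le hYone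
    apply one_div_le_one_div_of_le (by positivity)
    linarith
  obtain ⟨hy1, hy2, hy3, hy4⟩ := level_low r hr2 Y (by omega) (by linarith)
  obtain ⟨hz1, hz2, hz3, hz4⟩ := level_low r0 hr02 Y (by omega) (by linarith)
  have hy5 : 3 ≤ ⌊(Y : ℝ) ^ (1 / (r : ℝ))⌋₊ := by
    have : (3 : ℝ) ≤ ⌊(Y : ℝ) ^ (1 / (r : ℝ))⌋₊ := hYr.trans hy1
    exact_mod_cast this
  have hz5 : 3 ≤ ⌊(Y : ℝ) ^ (1 / (r0 : ℝ))⌋₊ := by
    have : (3 : ℝ) ≤ ⌊(Y : ℝ) ^ (1 / (r0 : ℝ))⌋₊ := hYr.trans (hYr0.trans hz1)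
    exact_mod_cast this
  have hylog : 0 < Real.log ⌊(Y : ℝ) ^ (1 / (r : ℝ))⌋₊ := lt_of_lt_of_le (by positivity) hy2
  have hzlog : 0 < Real.log ⌊(Y : ℝ) ^ (1 / (r0 : ℝ))⌋₊ := lt_of_lt_of_le (by positivity) hz2
  have hVy : Vq (Qs f s) ⌊(Y : ℝ) ^ (1 / (r : ℝ))⌋₊ ≤ C3 / L := by
    rw [Vq_Qs f c hQ]
    refine (hV _ hy5).2.trans ?_
    have h1 : (θ * Real.log X / (2 * r)) ^ k ≤ Real.log ⌊(Y : ℝ) ^ (1 / (r : ℝ))⌋₊ ^ k := by
      apply pow_le_pow_left₀ (by positivity)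
      refine le_trans ?_ hy2
      gcongr
    calc Cv / Real.log ⌊(Y : ℝ) ^ (1 / (r : ℝ))⌋₊ ^ k ≤ Cv / (θ * Real.log X / (2 * r)) ^ k := by
          gcongr
      _ = C3 / L := by
          rw [hC3, hL, div_pow, mul_pow, div_pow]
          field_simp
  obtain ⟨E0, hE0, hlarge'⟩ := hlarge ⌊L⌋₊
  have hexp : (Y : ℝ) ^ (1 / (r : ℝ)) ≤ (X : ℝ) ^ (1 / (r : ℝ)) :=
    Real.rpow_le_rpow hYpos.le hYXr (by positivity)
  obtain ⟨g1, g2, g3, g4⟩ := hY1 Y hYY1 (Qs f s) (CoG (Q f)) L E0 (sdata_Qs f hf c hQ s)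
    (by
      have := le_abs_self L0
      linarith) hL8 hVy hE0 (hlarge' _) (Rgh f r X Y) (by
      intro m hm _ _ p hp
      have := hm p (by
        rw [mem_pz] at hp ⊢
        exact ⟨hp.1.trans (Nat.floor_le_floor hexp), hp.2⟩)
      rw [← hs] at this
      exact this)
  refine ⟨g1, g2, g3, g4, ?_⟩
  -- lower bound
  have hVz : v / L ≤ Vq (Q f) ⌊(Y : ℝ) ^ (1 / (r0 : ℝ))⌋₊ := by
    refine le_trans ?_ (hV _ hz5).1
    rw [hL]
    apply div_le_div_of_nonneg_left hv.le (by positivity)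
    exact pow_le_pow_left₀ hzlog.le (hz3.trans hlogYX) k
  have hlw := hY2 Y hYY2 (Qs f s) (perB_Qs f c hQ s) (by
    rw [Vq_Qs f c hQ]
    refine le_trans ?_ (hV _ hz5).1
    rw [div_le_div_iff₀ (by positivity) (by positivity), one_mul]
    have h2 : 1 ≤ v * Real.log Y := by
      have : 1 / v ≤ Real.log Y := by linarith
      rw [div_le_iff₀ hv] at this
      linarith
    calc Real.log ⌊(Y : ℝ) ^ (1 / (r0 : ℝ))⌋₊ ^ k ≤ Real.log Y ^ k :=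
          pow_le_pow_left₀ hzlog.le hz3 k
      _ = Real.log Y ^ k * 1 := (mul_one _).symm
      _ ≤ Real.log Y ^ k * (v * Real.log Y) := by gcongr
      _ = v * Real.log Y ^ (k + 1) := by ring)
  rw [Vq_Qs f c hQ] at hlw
  have hl1 : v / 2 * Y / L ≤ Vq (Q f) ⌊(Y : ℝ) ^ (1 / (r0 : ℝ))⌋₊ * Y / 2 := by
    calc v / 2 * Y / L = v / L * Y / 2 := by ring
      _ ≤ _ := by gcongr
  refine hl1.trans (hlw.trans ?_)
  unfold co
  have hz0 : (2 : ℝ) ≤ (Y : ℝ) ^ (1 / (r0 : ℝ)) := by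
    have h6 : ((⌊(Y : ℝ) ^ (1 / (r0 : ℝ))⌋₊ : ℕ) : ℝ) ≤ (Y : ℝ) ^ (1 / (r0 : ℝ)) :=
      Nat.floor_le (by positivity)
    have h7 : (2 : ℝ) ≤ ((⌊(Y : ℝ) ^ (1 / (r0 : ℝ))⌋₊ : ℕ) : ℝ) := by exact_mod_cast hz4
    linarith
  have hXz : (X : ℝ) ^ (θ / r0) ≤ (Y : ℝ) ^ (1 / (r0 : ℝ)) := by
    calc (X : ℝ) ^ (θ / r0) = ((X : ℝ) ^ θ) ^ (1 / (r0 : ℝ)) := by
          rw [← Real.rpow_mul hXpos.le]
          congr 1
          ring
      _ ≤ _ := Real.rpow_le_rpow (by positivity) hXY (by positivity)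
  have hXz2 : (X : ℝ) ^ (1 / (r : ℝ)) ≤ (Y : ℝ) ^ (1 / (r0 : ℝ)) := by
    refine le_trans ?_ hXz
    apply Real.rpow_le_rpow_of_exponent_le hXone
    rw [div_le_div_iff₀ hrpos hr0pos]
    linarith
  have hbig : (X : ℝ) ^ (d + 2) ≤ ((Y : ℝ) ^ (1 / (r0 : ℝ))) ^ (r + 1) := by
    calc (X : ℝ) ^ (d + 2) = (X : ℝ) ^ ((d : ℝ) + 2) := by
          rw [← Real.rpow_natCast]
          push_cast
          rfl
      _ ≤ (X : ℝ) ^ (θ / r0 * r) := by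
          apply Real.rpow_le_rpow_of_exponent_le hXone
          rw [div_mul_eq_mul_div, le_div_iff₀ hr0pos]
          linarith
      _ = ((X : ℝ) ^ (θ / r0)) ^ r := by
          rw [Real.rpow_mul hXpos.le, Real.rpow_natCast]
      _ ≤ ((Y : ℝ) ^ (1 / (r0 : ℝ))) ^ r := pow_le_pow_left₀ (by positivity) hXz r
      _ ≤ ((Y : ℝ) ^ (1 / (r0 : ℝ))) ^ (r + 1) := pow_le_pow_right₀ (by linarith) (by omega)
  have hsub : (Finset.Ioc Y (2 * Y)).filter (fun n =>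
        ∀ p ∈ pz ⌊(Y : ℝ) ^ (1 / (r0 : ℝ))⌋₊, ¬ Qs f s p n) ⊆
      (Finset.Ioc Y (2 * Y)).filter (fun n => Alm f r X Y n) := by
    intro n hn
    rw [mem_filter, mem_Ioc] at hn ⊢
    obtain ⟨⟨hn1, hn2⟩, hn3⟩ := hn
    refine ⟨⟨hn1, hn2⟩, ?_⟩
    intro i
    have hrough : ∀ p : ℕ, p.Prime → (p : ℤ) ∣ (f i).eval ((n + (X - Y) : ℕ) : ℤ) →
        (Y : ℝ) ^ (1 / (r0 : ℝ)) < p := by
      intro p hp hdv
      exact not_mem_pz hp (fun h => hn3 p h ⟨i, by rw [hs]; exact hdv⟩)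
    have hne : (f i).eval ((n + (X - Y) : ℕ) : ℤ) ≠ 0 := by
      intro h0
      have := hrough 2 Nat.prime_two (by rw [h0]; exact dvd_zero _)
      push_cast at this
      linarith
    refine ⟨?_, fun p hp hdv => lt_of_le_of_lt hXz2 (hrough p hp hdv)⟩
    apply length_le _ r (Int.natAbs_ne_zero.2 hne) ((Y : ℝ) ^ (1 / (r0 : ℝ)))
    · intro p hp hdv
      exact hrough p hp (Int.natCast_dvd.2 hdv)
    · have h8 := hKD i ((n + (X - Y) : ℕ) : ℤ)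
      have e1 : ((((f i).eval ((n + (X - Y) : ℕ) : ℤ)).natAbs : ℕ) : ℝ) =
          |(((f i).eval ((n + (X - Y) : ℕ) : ℤ) : ℤ) : ℝ)| := by
        rw [Nat.cast_natAbs, Int.cast_abs]
      have e2 : |(((n + (X - Y) : ℕ) : ℤ) : ℝ)| = ((n + (X - Y) : ℕ) : ℝ) := by
        rw [Int.cast_natCast, abs_of_nonneg (Nat.cast_nonneg _)]
      rw [e1]
      rw [e2] at h8
      have hm5 : (1 : ℝ) + ((n + (X - Y) : ℕ) : ℝ) ≤ 5 * X := by
        have h9 : n + (X - Y) ≤ 4 * X := by omega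
        have h10 : ((n + (X - Y) : ℕ) : ℝ) ≤ 4 * X := by exact_mod_cast h9
        linarith
      have hm6 : (1 : ℝ) ≤ 1 + ((n + (X - Y) : ℕ) : ℝ) := by
        have : (0 : ℝ) ≤ ((n + (X - Y) : ℕ) : ℝ) := Nat.cast_nonneg _
        linarith
      have hKA : (Ki i : ℝ) ≤ A := by
        have h9 : Ki i ≤ ∑ i, Ki i :=
          Finset.single_le_sum (f := Ki) (fun _ _ => Nat.zero_le _) (mem_univ i)
        have h10 : Ki i ≤ A := by omega
        exact_mod_cast h10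
      have hDd : Di i ≤ d := by
        rw [hd]
        exact Finset.single_le_sum (f := Di) (fun _ _ => Nat.zero_le _) (mem_univ i)
      have hXA' : (A : ℝ) * 5 ^ d ≤ X := by exact_mod_cast hXA
      calc |(((f i).eval ((n + (X - Y) : ℕ) : ℤ) : ℤ) : ℝ)| ≤
            Ki i * (1 + ((n + (X - Y) : ℕ) : ℝ)) ^ Di i := h8
        _ ≤ A * (1 + ((n + (X - Y) : ℕ) : ℝ)) ^ d := by
          apply mul_le_mul hKA (pow_le_pow_right₀ hm6 hDd) (by positivity) (by positivity)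
        _ ≤ A * (5 * X) ^ d := by gcongr
        _ = A * 5 ^ d * (X : ℝ) ^ d := by rw [mul_pow]; ring
        _ ≤ X * (X : ℝ) ^ d := by gcongr
        _ = (X : ℝ) ^ (d + 1) := by rw [pow_succ]; ring
        _ ≤ (X : ℝ) ^ (d + 2) := pow_le_pow_right₀ hXone (by omega)
        _ ≤ _ := hbig
    · linarith
  exact_mod_cast card_le_card hsub

end Pool.Agent.TH464.PW
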