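import Pool.Agent.TH464.PW.Main

set_option autoImplicit false

/-!
# Admissible quadratic polynomials
-/

namespace Pool.Agent.TH464.PW

open Polynomial

/-- the quadratic polynomial -/
noncomputable def quad (a b c : ℤ) : ℤ[X] := C a * X ^ 2 + C b * X + C c

lemma quad_eval (a b c m : ℤ) : (quad a b c).eval m = a * m ^ 2 + b * m + c := by
  unfold quad
  simp

lemma quad_deg (a b c : ℤ) (ha : a ≠ 0) : (quad a b c).natDegree = 2 := natDegree_quadratic ha

lemma quad_lead (a b c : ℤ) (ha : a ≠ 0) : (quad a b c).leadingCoeff = a := leadingCoeff_quadratic ha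

lemma quad_prim (a b c : ℤ) (hg : ∀ p : ℕ, p.Prime → ¬ ((p : ℤ) ∣ a ∧ (p : ℤ) ∣ b ∧ (p : ℤ) ∣ c)) :
    (quad a b c).IsPrimitive := by
  rw [isPrimitive_iff_isUnit_of_C_dvd]
  intro r hr
  have h := (C_dvd_iff_dvd_coeff r (quad a b c)).1 hr
  by_contra hu
  have hne : r.natAbs ≠ 1 := fun h1 => hu (Int.isUnit_iff_natAbs_eq.2 h1)
  obtain ⟨p, hp, hpr⟩ := Nat.exists_prime_and_dvd hne
  have hpr' : (p : ℤ) ∣ r := Int.natCast_dvd.2 hpr
  have h0 := h 0
  have h1 := h 1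
  have h2 := h 2
  unfold quad at h0 h1 h2
  simp only [coeff_add, coeff_C_mul, coeff_X_pow, coeff_X, coeff_C] at h0 h1 h2
  norm_num at h0 h1 h2
  exact hg p hp ⟨hpr'.trans h2, hpr'.trans h1, hpr'.trans h0⟩

lemma quad_irr (a b c : ℤ) (ha : a ≠ 0)
    (hg : ∀ p : ℕ, p.Prime → ¬ ((p : ℤ) ∣ a ∧ (p : ℤ) ∣ b ∧ (p : ℤ) ∣ c))
    (hD : ¬ IsSquare (b ^ 2 - 4 * a * c)) : Irreducible (quad a b c) := by
  rw [Polynomial.IsPrimitive.Int.irreducible_iff_irreducible_map_cast (quad_prim a b c hg)]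
  have hmap : (quad a b c).map (Int.castRingHom ℚ) = C (a : ℚ) * X ^ 2 + C (b : ℚ) * X + C (c : ℚ) := by
    unfold quad
    simp
  rw [hmap]
  have ha' : (a : ℚ) ≠ 0 := by exact_mod_cast ha
  have hdeg := natDegree_quadratic (b := (b : ℚ)) (c := (c : ℚ)) ha'
  apply Polynomial.irreducible_of_degree_le_three_of_not_isRoot
  · rw [hdeg]
    decide
  · intro x hx
    rw [IsRoot.def] at hx
    simp only [eval_add, eval_mul, eval_C, eval_pow, eval_X] at hx
    have h3 : (2 * a * x + b) ^ 2 = (b : ℚ) ^ 2 - 4 * a * c := by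
      linear_combination 4 * (a : ℚ) * hx
    apply hD
    have h4 : IsSquare (((b ^ 2 - 4 * a * c : ℤ) : ℚ)) := by
      refine ⟨2 * a * x + b, ?_⟩
      push_cast
      rw [← h3]
      ring
    exact Rat.isSquare_intCast_iff.1 h4

/-- no fixed prime divisor -/
lemma quad_adm (a b c : ℤ)
    (hg : ∀ p : ℕ, p.Prime → ¬ ((p : ℤ) ∣ a ∧ (p : ℤ) ∣ b ∧ (p : ℤ) ∣ c))
    (hpar : ¬ (Even (a + b) ∧ Even c)) (p : ℕ) (hp : p.Prime) :
    ∃ m : ℕ, ¬ (p : ℤ) ∣ (quad a b c).eval (m : ℤ) := by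
  by_contra hcon
  push Not at hcon
  have h0 := hcon 0
  have h1 := hcon 1
  have h2 := hcon 2
  rw [quad_eval] at h0 h1 h2
  push_cast at h0 h1 h2
  have h0' : (p : ℤ) ∣ c := by simpa using h0
  have h1' : (p : ℤ) ∣ a + b := by
    have := dvd_sub h1 h0'
    ring_nf at this
    ring_nf
    exact this
  by_cases hp2 : p = 2
  · subst hp2
    exact hpar ⟨even_iff_two_dvd.2 (by exact_mod_cast h1'), even_iff_two_dvd.2 (by exact_mod_cast h0')⟩
  · have h2' : (p : ℤ) ∣ 2 * a := by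
      have := dvd_sub (dvd_sub h2 h0') (dvd_mul_of_dvd_right h1' 2)
      ring_nf at this
      ring_nf
      exact this
    have hpi : Prime (p : ℤ) := Nat.prime_iff_prime_int.1 hp
    have h3 : (p : ℤ) ∣ a := by
      rcases hpi.dvd_or_dvd h2' with h4 | h4
      · exfalso
        have h5 : p ∣ 2 := by exact_mod_cast h4
        exact hp2 ((Nat.prime_dvd_prime_iff_eq hp Nat.prime_two).1 h5)
      · exact h4
    have h4 : (p : ℤ) ∣ b := by
      have := dvd_sub h1' h3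
      ring_nf at this
      exact this
    exact hg p hp ⟨h3, h4, h0'⟩

end Pool.Agent.TH464.PW
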