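import Pool.Agent.TH464.PW.Input

set_option autoImplicit false

/-!
# Almost prime values of polynomials: windows around a positive proportion of the integers of every
short interval
-/

namespace Pool.Agent.TH464.PW

open Polynomial Finset Filter
open Pool.Agent.W123.RP Pool.Agent.H373R2.T7 Pool.Agent.W123.RU Pool.Agent.W123.RU.Poly
open Pool.Agent.W123.GS

variable {ι : Type} [Fintype ι]

open Classical in
/-- the number of the `m` in `(a, b]` with almost prime values at height `X` -/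
noncomputable def Nc (f : ι → ℤ[X]) (r X a b : ℕ) : ℕ :=
  ((Finset.Ioc a b).filter (fun m => Almost f r ((X : ℝ) ^ (1 / (r : ℝ))) m)).card

/-- all windows around `n` have the right order -/
def Reg (f : ι → ℤ[X]) (r : ℕ) (c₁ c₂ K : ℝ) (X Y n : ℕ) : Prop :=
  ∀ a b : ℕ, a ≤ n → n ≤ b → K * Real.log X ^ (Fintype.card ι) ≤ (b : ℝ) - a → (b : ℝ) - a ≤ Y →
    c₁ * ((b : ℝ) - a) / Real.log X ^ (Fintype.card ι) ≤ Nc f r X a b ∧
      (Nc f r X a b : ℝ) ≤ c₂ * ((b : ℝ) - a) / Real.log X ^ (Fintype.card ι)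

/-- constant density on `[n - D, n + D]` -/
def ConstD (f : ι → ℤ[X]) (r : ℕ) (c₁ c₂ δ : ℝ) (X n D : ℕ) : Prop :=
  ∃ lam : ℝ, c₁ ≤ lam ∧ lam ≤ c₂ ∧ ∀ u v : ℕ, n ≤ u + D → u ≤ v → v ≤ n + D →
    |(Nc f r X u v : ℝ) - lam * ((v : ℝ) - u) / Real.log X ^ (Fintype.card ι)| ≤
      δ * D / Real.log X ^ (Fintype.card ι)

open Classical in
/-- the number of bad scales -/
noncomputable def bad (f : ι → ℤ[X]) (r : ℕ) (c₁ c₂ δ : ℝ) (X Y n : ℕ) : ℕ :=
  ((range (Nat.log 2 Y + 1)).filter (fun j => Real.log X ^ (Fintype.card ι) ≤ (2 : ℝ) ^ j ∧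
    ¬ ConstD f r c₁ c₂ δ X n (2 ^ j))).card

open Classical in
lemma co_Alm (f : ι → ℤ[X]) (r X Y a b : ℕ) :
    co (Alm f r X Y) a b = Nc f r X (a + (X - Y)) (b + (X - Y)) := by
  unfold co Nc
  apply Finset.card_bij (fun n _ => n + (X - Y))
  · intro n hn
    rw [mem_filter, mem_Ioc] at hn ⊢
    exact ⟨⟨by omega, by omega⟩, hn.2⟩
  · intro n _ m _ h
    omega
  · intro m hm
    rw [mem_filter, mem_Ioc] at hm
    refine ⟨m - (X - Y), ?_, by omega⟩
    rw [mem_filter, mem_Ioc]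
    have e : m - (X - Y) + (X - Y) = m := by omega
    unfold Alm
    rw [e]
    exact ⟨⟨by omega, by omega⟩, hm.2⟩

open Classical in
lemma co_le (f : ι → ℤ[X]) (r X Y a b : ℕ) :
    co (Alm f r X Y) a b ≤ co (Rgh f r X Y) a b := by
  unfold co
  apply card_le_card
  intro n hn
  rw [mem_filter] at hn ⊢
  exact ⟨hn.1, rgh_of_alm f r X Y n hn.2⟩

open Classical in
theorem main_pos [Nonempty ι] (f : ι → ℤ[X]) (hf : Sys f) (θ : ℝ) (hθ : 0 < θ) (hθ1 : θ ≤ 1) :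
    ∃ (r : ℕ) (c₁ c₂ K κ : ℝ), 0 < c₁ ∧ 0 < c₂ ∧ 0 < K ∧ 0 < κ ∧ ∀ δ : ℝ, 0 < δ → ∃ B : ℕ,
      ∀ᶠ X : ℕ in atTop, ∀ Y : ℕ, (X : ℝ) ^ θ ≤ Y → Y ≤ X →
        κ * Y ≤ (((Finset.Ioc X (X + Y)).filter (fun n =>
          Reg f r c₁ c₂ K X Y n ∧ bad f r c₁ c₂ δ X Y n ≤ B)).card : ℝ) := by
  obtain ⟨r, C1, C2, cS, hr, hC1, hC2, hcS, hin⟩ := input f hf θ hθ hθ1
  obtain ⟨c₁, c₂, K, κ, hc₁, hc₂, hK, hκ, hreg⟩ := regular_abs cS C1 C2 hcS hC1 hC2
  refine ⟨r, c₁, c₂, K, κ / 2, hc₁, hc₂, by linarith, by positivity, ?_⟩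
  intro δ hδ
  obtain ⟨B, Bs, hBs, hcore⟩ := scales_core c₁ c₂ K C2 (min (κ / 2) 1) δ hc₂ hK hC2
    (by positivity) (min_le_right _ _) hδ
  refine ⟨B, ?_⟩
  filter_upwards [hin (K / cS + Bs + 1) (by positivity)] with X hX Y hXY hYX
  obtain ⟨h1, h2, h3, h4, h5⟩ := hX Y hXY hYX
  obtain ⟨L, hL⟩ : ∃ L, L = Real.log X ^ (Fintype.card ι) := ⟨_, rfl⟩
  rw [← hL] at h1 h2 h3 h4 h5
  have hL0 : 0 < L := by linarith
  have hLL : 0 < L ^ 2 := by positivity
  have hKc : 0 ≤ K / cS := by positivity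
  have e1 : K / cS * L ^ 2 + Bs * L ^ 2 + L ^ 2 ≤ Y := by linarith
  have e2 : 0 ≤ K / cS * L ^ 2 := by positivity
  have e3 : 0 ≤ Bs * L ^ 2 := by positivity
  have hPP : ∀ n, Alm f r X Y n → Rgh f r X Y n := rgh_of_alm f r X Y
  have hR := hreg (Alm f r X Y) (Rgh f r X Y) Y L h1 (by
    have : K / cS * L ^ 2 ≤ Y := by linarith
    rw [div_mul_eq_mul_div, div_le_iff₀ hcS] at this
    linarith) hPP h3 h5 h4
  have hB := hcore (Alm f r X Y) (Rgh f r X Y) Y L h1 (by linarith) hPP h4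
  obtain ⟨RR, hRR⟩ : ∃ RR, RR = (Finset.Ioc Y (2 * Y)).filter (fun n => ∀ a b : ℕ, a ≤ n → n ≤ b →
        K * L ≤ (b : ℝ) - a → (b : ℝ) - a ≤ n →
          c₁ * ((b : ℝ) - a) / L ≤ co (Alm f r X Y) a b ∧
            (co (Rgh f r X Y) a b : ℝ) ≤ c₂ * ((b : ℝ) - a) / L) := ⟨_, rfl⟩
  rw [← hRR] at hR
  obtain ⟨BB, hBB⟩ : ∃ BB, BB = (Finset.Ioc Y (2 * Y)).filter (fun n => (∀ a b : ℕ, a ≤ n → n ≤ b →
        K * L ≤ (b : ℝ) - a → (b : ℝ) - a ≤ n →
          c₁ * ((b : ℝ) - a) / L ≤ co (Alm f r X Y) a b ∧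
            (co (Rgh f r X Y) a b : ℝ) ≤ c₂ * ((b : ℝ) - a) / L) ∧
        B < ((range (Nat.log 2 Y + 1)).filter (fun j => L ≤ (2 : ℝ) ^ j ∧
          ¬ Good (Alm f r X Y) c₁ c₂ δ L n j)).card) := ⟨_, rfl⟩
  rw [← hBB] at hB
  have hsd : ((RR.card : ℝ)) - BB.card ≤ ((RR \ BB).card : ℝ) := by
    have h := Finset.card_le_card_sdiff_add_card (s := RR) (t := BB)
    have h' : (RR.card : ℝ) ≤ ((RR \ BB).card : ℝ) + BB.card := by exact_mod_cast h
    linarith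
  have hYpos : (0 : ℝ) ≤ Y := Nat.cast_nonneg Y
  have hmin : min (κ / 2) 1 * (Y : ℝ) ≤ κ / 2 * Y :=
    mul_le_mul_of_nonneg_right (min_le_left _ _) hYpos
  have hfin : κ / 2 * Y ≤ ((RR \ BB).card : ℝ) := by linarith
  refine hfin.trans ?_
  have hle : (RR \ BB).card ≤ ((Finset.Ioc X (X + Y)).filter (fun n =>
          Reg f r c₁ c₂ K X Y n ∧ bad f r c₁ c₂ δ X Y n ≤ B)).card := by
    apply Finset.card_le_card_of_injOn (fun n => n + (X - Y))
    · intro n hn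
      rw [Finset.mem_coe, Finset.mem_sdiff, hRR, hBB, mem_filter, mem_filter, mem_Ioc] at hn
      obtain ⟨⟨hn1, hn2⟩, hn3⟩ := hn
      rw [Finset.mem_coe, mem_filter, mem_Ioc]
      beta_reduce
      have hfew : ((range (Nat.log 2 Y + 1)).filter (fun j => L ≤ (2 : ℝ) ^ j ∧
          ¬ Good (Alm f r X Y) c₁ c₂ δ L n j)).card ≤ B := by
        by_contra hcon
        rw [not_le] at hcon
        exact hn3 ⟨hn1, hn2, hcon⟩
      refine ⟨⟨by omega, by omega⟩, ?_, ?_⟩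
      · intro a b ha hb hab1 hab2
        rw [← hL] at hab1 ⊢
        have hab3 : (b : ℝ) ≤ a + Y := by linarith
        have hab4 : b ≤ a + Y := by exact_mod_cast hab3
        obtain ⟨a', rfl⟩ : ∃ a', a = a' + (X - Y) := ⟨a - (X - Y), by omega⟩
        obtain ⟨b', rfl⟩ : ∃ b', b = b' + (X - Y) := ⟨b - (X - Y), by omega⟩
        have hcast : ((b' + (X - Y) : ℕ) : ℝ) - ((a' + (X - Y) : ℕ) : ℝ) = (b' : ℝ) - a' := by
          push_cast
          ring
        rw [hcast] at hab1 hab2 ⊢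
        have hYn : (Y : ℝ) ≤ n := by exact_mod_cast hn1.1.le
        obtain ⟨f1, f2⟩ := hn2 a' b' (by omega) (by omega) hab1 (by linarith)
        have f3 := co_le f r X Y a' b'
        have f3' : (co (Alm f r X Y) a' b' : ℝ) ≤ co (Rgh f r X Y) a' b' := by exact_mod_cast f3
        rw [← co_Alm]
        exact ⟨f1, f3'.trans f2⟩
      · refine le_trans ?_ hfew
        unfold bad
        apply card_le_card
        intro j hj
        rw [mem_filter] at hj ⊢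
        obtain ⟨hj1, hj2, hj3⟩ := hj
        rw [← hL] at hj2
        refine ⟨hj1, hj2, ?_⟩
        intro hG
        apply hj3
        have hjY : 2 ^ j ≤ Y := by
          have h6 : j ≤ Nat.log 2 Y := by
            rw [mem_range] at hj1
            omega
          have hY0 : Y ≠ 0 := by omega
          exact (Nat.pow_le_pow_right (by norm_num) h6).trans (Nat.pow_log_le_self 2 hY0)
        obtain ⟨lam, g1, g2, g3⟩ := hG
        refine ⟨lam, g1, g2, ?_⟩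
        intro u v hu huv hv
        obtain ⟨u', rfl⟩ : ∃ u', u = u' + (X - Y) := ⟨u - (X - Y), by omega⟩
        obtain ⟨v', rfl⟩ : ∃ v', v = v' + (X - Y) := ⟨v - (X - Y), by omega⟩
        have g4 := g3 u' v' (by omega) (by omega) (by omega)
        rw [← hL, ← co_Alm]
        have hcast : ((v' + (X - Y) : ℕ) : ℝ) - ((u' + (X - Y) : ℕ) : ℝ) = (v' : ℝ) - u' := by
          push_cast
          ring
        rw [hcast]
        push_cast
        exact g4
    · intro a _ b _ hab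
      simp only at hab
      omega
  exact_mod_cast hle

end Pool.Agent.TH464.PW
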