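import Pool.Agent.TH464.PW.Main
import Pool.Agent.W123.PP.Local

set_option autoImplicit false

/-!
# Almost prime values of polynomials: neighbourhoods of almost all of them in every short interval
-/

namespace Pool.Agent.TH464.PW

open Polynomial Finset Filter
open Pool.Agent.W123.RP Pool.Agent.H373R2.T7 Pool.Agent.W123.RU Pool.Agent.W123.RU.Poly
open Pool.Agent.W123.GS Pool.Agent.W123.PP

variable {ι : Type} [Fintype ι]

/-- all windows around `m` of length at least `log ^ k X / c` have the right order -/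
def RightO (f : ι → ℤ[X]) (r : ℕ) (c : ℝ) (X Y m : ℕ) : Prop :=
  ∀ s t : ℕ, s ≤ Y → t ≤ Y → Real.log X ^ (Fintype.card ι) ≤ c * (s + t) →
    c * (s + t) / Real.log X ^ (Fintype.card ι) ≤ Nc f r X (m - s) (m + t) ∧
      (Nc f r X (m - s) (m + t) : ℝ) ≤ (s + t) / (c * Real.log X ^ (Fintype.card ι))

/-- constant density on both sides of `m` up to the distance `2 ^ j` -/
def ConstS (f : ι → ℤ[X]) (r : ℕ) (c δ : ℝ) (X m j : ℕ) : Prop :=
  ∃ lam : ℝ, c ≤ lam ∧ lam ≤ 1 / c ∧ ∀ s t : ℕ, s ≤ 2 ^ j → t ≤ 2 ^ j →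
    |(Nc f r X (m - s) (m + t) : ℝ) - lam * (s + t) / Real.log X ^ (Fintype.card ι)| ≤
      δ * 2 ^ j / Real.log X ^ (Fintype.card ι)

open Classical in
/-- the number of bad scales -/
noncomputable def badS (f : ι → ℤ[X]) (r : ℕ) (c δ : ℝ) (X Y m : ℕ) : ℕ :=
  ((Finset.range (Nat.log 2 Y + 1)).filter (fun j => Real.log X ^ (Fintype.card ι) ≤ (2 : ℝ) ^ j ∧
    ¬ ConstS f r c δ X m j)).card

open Classical in
theorem main_points [Nonempty ι] (f : ι → ℤ[X]) (hf : Sys f) (θ : ℝ) (hθ : 0 < θ) (hθ1 : θ ≤ 1) :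
    ∃ r : ℕ, (∃ κ : ℝ, 0 < κ ∧ ∀ᶠ X : ℕ in atTop, ∀ Y : ℕ, (X : ℝ) ^ θ ≤ Y → Y ≤ X →
      κ * Y / Real.log X ^ (Fintype.card ι) ≤ Nc f r X X (X + Y)) ∧
    ∀ ε : ℝ, 0 < ε → ∃ c : ℝ, 0 < c ∧ ∀ δ : ℝ, 0 < δ → ∃ B : ℕ,
      ∀ᶠ X : ℕ in atTop, ∀ Y : ℕ, (X : ℝ) ^ θ ≤ Y → Y ≤ X →
        (((Finset.Ioc X (X + Y)).filter (fun m => Almost f r ((X : ℝ) ^ (1 / (r : ℝ))) m ∧
          ¬ (RightO f r c X Y m ∧ badS f r c δ X Y m ≤ B))).card : ℝ) ≤
            ε * Y / Real.log X ^ (Fintype.card ι) := by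
  obtain ⟨r, C1, C2, cS, hr, hC1, hC2, hcS, hin⟩ := input f hf θ hθ hθ1
  refine ⟨r, ⟨cS, hcS, ?_⟩, ?_⟩
  · filter_upwards [hin 1 one_pos] with X hX Y hXY hYX
    obtain ⟨-, -, -, -, h5⟩ := hX Y hXY hYX
    rw [co_Alm] at h5
    have e1 : Y + (X - Y) = X := by omega
    have e2 : 2 * Y + (X - Y) = X + Y := by omega
    rw [e1, e2] at h5
    exact h5
  intro ε hε
  obtain ⟨c1, Lam, hc1, hLam, hpts⟩ := points C1 C2 hC1 hC2 ε hε
  obtain ⟨c0, hc0def⟩ : ∃ c0 : ℝ, c0 = min c1 1 := ⟨_, rfl⟩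
  have hc0 : 0 < c0 := by rw [hc0def]; exact lt_min hc1 one_pos
  have hc0c1 : c0 ≤ c1 := by rw [hc0def]; exact min_le_left _ _
  have hc01 : c0 ≤ 1 := by rw [hc0def]; exact min_le_right _ _
  obtain ⟨c, hcdef⟩ : ∃ c : ℝ, c = min (1 / (3 * Lam)) (c0 / 4) := ⟨_, rfl⟩
  have hc : 0 < c := by rw [hcdef]; positivity
  have hc4 : c ≤ c0 / 4 := by rw [hcdef]; exact min_le_right _ _
  have hcL : c ≤ 1 / (3 * Lam) := by rw [hcdef]; exact min_le_left _ _
  refine ⟨c, hc, ?_⟩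
  intro δ hδ
  obtain ⟨K, B0, hB0, hpts⟩ := hpts (min δ (c0 / 4)) (by positivity)
  obtain ⟨s0, hs0⟩ : ∃ s0 : ℕ, 2 / c0 ≤ (2 : ℝ) ^ s0 := by
    obtain ⟨j, hj⟩ := pow_unbounded_of_one_lt (2 / c0) (one_lt_two : (1 : ℝ) < 2)
    exact ⟨j, hj.le⟩
  refine ⟨K + s0, ?_⟩
  filter_upwards [hin (B0 + 1) (by positivity)] with X hX Y hXY hYX
  obtain ⟨h1, h2, h3, h4, -⟩ := hX Y hXY hYX
  obtain ⟨L, hL⟩ : ∃ L, L = Real.log X ^ (Fintype.card ι) := ⟨_, rfl⟩
  rw [← hL] at h1 h2 h3 h4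
  have hL0 : 0 < L := by linarith
  have hLL : 0 < L ^ 2 := by positivity
  have hB0L : 0 ≤ B0 * L ^ 2 := by positivity
  have hLY : L ≤ Y := by nlinarith
  have hBX' : B0 * L ^ 2 ≤ Y := by nlinarith
  have hPP : ∀ n, Alm f r X Y n → Rgh f r X Y n := rgh_of_alm f r X Y
  have hbad := hpts (Alm f r X Y) (Rgh f r X Y) Y L h1 hBX' hPP h3 h4
  rw [← hL]
  refine le_trans ?_ hbad
  have hle : ((Finset.Ioc X (X + Y)).filter (fun m => Almost f r ((X : ℝ) ^ (1 / (r : ℝ))) m ∧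
          ¬ (RightO f r c X Y m ∧ badS f r c δ X Y m ≤ K + s0))).card ≤
      ((Finset.Ioc Y (2 * Y)).filter (fun p => Alm f r X Y p ∧ ¬ (
        (∀ H : ℕ, 1 ≤ H → H ≤ Y →
          c1 / L * H ≤ cl (Alm f r X Y) p (p + H) ∧ c1 / L * H ≤ cl (Alm f r X Y) (p + 1 - H) (p + 1)) ∧
        (∀ H : ℕ, ⌊L⌋₊ ≤ H → H ≤ Y →
          (co (Rgh f r X Y) p (p + H) : ℝ) ≤ Lam / L * H ∧
            (co (Rgh f r X Y) (p - H) p : ℝ) ≤ Lam / L * H) ∧
        ((range (Nat.log 2 Y + 1)).filter (fun j => L ≤ (2 : ℝ) ^ j ∧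
          ¬ Good (Alm f r X Y) 0 Lam (min δ (c0 / 4)) L p j)).card ≤ K))).card := by
    apply Finset.card_le_card_of_injOn (fun m => m - (X - Y))
    · intro m hm
      rw [Finset.mem_coe, mem_filter, mem_Ioc] at hm
      obtain ⟨⟨hm1, hm2⟩, hm3, hm4⟩ := hm
      obtain ⟨n, rfl⟩ : ∃ n, m = n + (X - Y) := ⟨m - (X - Y), by omega⟩
      have e : n + (X - Y) - (X - Y) = n := by omega
      rw [Finset.mem_coe]
      beta_reduce
      rw [e, mem_filter, mem_Ioc]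
      refine ⟨⟨by omega, by omega⟩, hm3, ?_⟩
      rintro ⟨W1, W2, W3⟩
      apply hm4
      have hgood := local_good (Alm f r X Y) n Y L c0 Lam c δ K s0 h1 hLY (by omega) hc0 hc01 hLam hc
        hc4 hcL hδ hs0 (by
          intro H hH1 hH2
          have h3 : c0 / L * H ≤ c1 / L * H := by gcongr
          exact ⟨h3.trans (W1 H hH1 hH2).1, h3.trans (W1 H hH1 hH2).2⟩) (by
          intro H hH1 hH2
          have a1 := co_le f r X Y n (n + H)
          have a2 := co_le f r X Y (n - H) n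
          have a1' : (co (Alm f r X Y) n (n + H) : ℝ) ≤ co (Rgh f r X Y) n (n + H) := by
            exact_mod_cast a1
          have a2' : (co (Alm f r X Y) (n - H) n : ℝ) ≤ co (Rgh f r X Y) (n - H) n := by
            exact_mod_cast a2
          exact ⟨a1'.trans (W2 H hH1 hH2).1, a2'.trans (W2 H hH1 hH2).2⟩) W3
      obtain ⟨G1, G2⟩ := hgood
      have hshift : ∀ s t : ℕ, s ≤ Y → Nc f r X (n + (X - Y) - s) (n + (X - Y) + t) =
          co (Alm f r X Y) (n - s) (n + t) := by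
        intro s t hs
        rw [co_Alm]
        congr 1 <;> omega
      constructor
      · intro s t hs ht hst
        rw [← hL] at hst ⊢
        rw [hshift s t hs]
        exact G1 s t hs ht hst
      · refine le_trans ?_ G2
        unfold badS
        apply card_le_card
        intro j hj
        rw [mem_filter] at hj ⊢
        obtain ⟨hj1, hj2, hj3⟩ := hj
        rw [← hL] at hj2
        refine ⟨hj1, hj2, ?_⟩
        rintro ⟨lam, g1, g2, g3⟩
        apply hj3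
        have hjY : 2 ^ j ≤ Y := by
          have h6 : j ≤ Nat.log 2 Y := by
            rw [mem_range] at hj1
            omega
          have hY0 : Y ≠ 0 := by
            rintro rfl
            simp at hLY
            linarith
          exact (Nat.pow_le_pow_right (by norm_num) h6).trans (Nat.pow_log_le_self 2 hY0)
        refine ⟨lam, g1, g2, ?_⟩
        intro s t hs ht
        rw [← hL, hshift s t (hs.trans hjY)]
        exact g3 s t hs ht
    · intro a ha b hb hab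
      rw [Finset.mem_coe, mem_filter, mem_Ioc] at ha hb
      simp only at hab
      omega
  exact_mod_cast hle

end Pool.Agent.TH464.PW
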